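import Pool.Agent.Work.MP_db9399_sc_helper26.IND

/-!
# MP_db9399, THEOREM SC: block PALL (helper26)
-/

set_option autoImplicit false

namespace Pool.Agent.Work.MP_db9399_sc.helper26

open Finset Classical
open Pool.Agent.Work.MP_db9399_all (nb)
open Pool.Agent.Work.MP_db9399_dn (NB IsMat)

universe u

theorem stmt_PALL (hS : Stmt_STEP.{u}) (hD : Stmt_DEP.{u}) : Stmt_PALL.{u} := by
  intro η α hη hη' hα
  obtain ⟨d1, h1⟩ := rounds hS η hη hη'
  obtain ⟨d2, h2⟩ := hD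
  refine ⟨max d1 (max d2 (⌈4000 / α⌉₊ + 1)), ?_⟩
  intro V _ G d k I D0 X W hd hdeg hNB hI hIα hD0 hX hW
  have hd1 : d1 ≤ d := (le_max_left _ _).trans hd
  have hd2 : d2 ≤ d := ((le_max_left _ _).trans (le_max_right _ _)).trans hd
  have hd3 : ⌈4000 / α⌉₊ + 1 ≤ d := ((le_max_right _ _).trans (le_max_right _ _)).trans hd
  have hdpos : (0 : ℝ) < d := by
    have : 0 < d := by omega
    exact_mod_cast this
  have hαd : 4000 ≤ α * d := by
    have h3 : 4000 / α ≤ (d : ℝ) := by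
      refine (Nat.le_ceil _).trans ?_
      have : ⌈4000 / α⌉₊ ≤ d := by omega
      exact_mod_cast this
    rw [div_le_iff₀ hα] at h3
    linarith
  refine h1 G d k I D0 X (fun _ O => O ⊆ W) hd1 hdeg hNB hI hD0 hX ?_
  intro b hbI I' hI' _ O' hO' hO'd D Cs hDdeg hfam
  -- the eligible vertices
  set A : Finset V → Finset V := fun C =>
    ((C ∩ W).filter fun v => Typ (G \ D) d (univ \ X b) C v) \ I'.biUnion O' with hA
  have hAcard : ∀ C ∈ Cs, 2 ≤ (A C).card := by
    intro C hC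
    obtain ⟨e1, -, -, e4, e5⟩ := h2 G (G \ D) d (univ \ X b) (Hv η G d \ X b) C hd2 hfam.env
      (hfam.crit C hC)
    have e6 := e5 (Fin k) I' O' hO' hO'd
    have e7 := hW b hbI D C hDdeg hfam.env (hfam.crit C hC) (hfam.conn C hC)
    have e8 : (C ∩ W).card ≤ (A C).card + ((C.filter fun v => ¬ Typ (G \ D) d (univ \ X b) C v).card
        + (I'.biUnion O' ∩ C).card) := by
      refine le_trans (card_le_card (t := A C ∪
        ((C.filter fun v => ¬ Typ (G \ D) d (univ \ X b) C v) ∪ (I'.biUnion O' ∩ C))) ?_) ?_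
      · intro v hv
        rw [mem_inter] at hv
        by_cases t1 : Typ (G \ D) d (univ \ X b) C v
        · by_cases t2 : v ∈ I'.biUnion O'
          · exact mem_union_right _ (mem_union_right _ (mem_inter.2 ⟨t2, hv.1⟩))
          · exact mem_union_left _ (mem_sdiff.2 ⟨mem_filter.2 ⟨mem_inter.2 hv, t1⟩, t2⟩)
        · exact mem_union_right _ (mem_union_left _ (mem_filter.2 ⟨hv.1, t1⟩))
      · exact (card_union_le _ _).trans (Nat.add_le_add_left (card_union_le _ _) _)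
    have f1 : ((C.filter fun v => ¬ Typ (G \ D) d (univ \ X b) C v).card : ℝ) ≤ 1400 := by
      exact_mod_cast e1
    have f4 : 99 * (d : ℝ) ≤ 100 * C.card := by exact_mod_cast e4
    have f6 : (d : ℝ) * (I'.biUnion O' ∩ C).card ≤ 3 * I'.card * C.card + 1400 * d := by
      exact_mod_cast e6
    have f8 : ((C ∩ W).card : ℝ) ≤ (A C).card +
        ((C.filter fun v => ¬ Typ (G \ D) d (univ \ X b) C v).card + (I'.biUnion O' ∩ C).card) := by
      exact_mod_cast e8
    have f9 : (I'.card : ℝ) * 24 ≤ α * d := by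
      have : (I'.card : ℝ) ≤ I.card := by exact_mod_cast card_le_card hI'
      linarith
    have f10 : ((I'.biUnion O' ∩ C).card : ℝ) ≤ α / 8 * C.card + 1400 := by
      have g1 : (d : ℝ) * (I'.biUnion O' ∩ C).card ≤ d * (α / 8 * C.card + 1400) := by
        have g2 : (I'.card : ℝ) * 24 * C.card ≤ α * d * C.card :=
          mul_le_mul_of_nonneg_right f9 (Nat.cast_nonneg _)
        nlinarith
      exact le_of_mul_le_mul_left g1 hdpos
    have f11 : α * (99 * d) ≤ α * (100 * C.card) := mul_le_mul_of_nonneg_left f4 hα.le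
    have f12 : (2 : ℝ) ≤ (A C).card := by nlinarith
    exact_mod_cast f12
  have hex : ∀ C ∈ Cs, ∃ P : Finset V, P ⊆ A C ∧ P.card = 2 := fun C hC =>
    exists_subset_card_eq (hAcard C hC)
  choose! P hP1 hP2 using hex
  have hAC : ∀ C, ∀ v ∈ A C, v ∈ C ∧ v ∈ W ∧ Typ (G \ D) d (univ \ X b) C v ∧
      v ∉ I'.biUnion O' := by
    intro C v hv
    simp only [hA, mem_sdiff, mem_filter, mem_inter] at hv
    exact ⟨hv.1.1.1, hv.1.1.2, hv.1.2, hv.2⟩
  have hOC : ∀ C ∈ Cs, Cs.biUnion P ∩ C = P C := by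
    intro C hC
    ext v
    rw [mem_inter, mem_biUnion]
    constructor
    · rintro ⟨⟨C', hC', hv⟩, hvC⟩
      by_cases h : C' = C
      · rwa [h] at hv
      · exact absurd hvC (disjoint_left.1 (hfam.dis C' hC' C hC h) (hAC C' v (hP1 C' hC' hv)).1)
    · intro hv
      exact ⟨⟨C, hC, hv⟩, (hAC C v (hP1 C hC hv)).1⟩
  refine ⟨Cs.biUnion P, ?_, ?_, ?_, ?_, ?_⟩
  · intro z hz
    obtain ⟨C, hC, hz⟩ := mem_biUnion.1 hz
    exact ⟨C, hC, (hAC C z (hP1 C hC hz)).2.2.1⟩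
  · intro C hC
    rw [hOC C hC, hP2 C hC]
  · intro C hC
    obtain ⟨v, w, hvw, hPe⟩ := card_eq_two.1 (hP2 C hC)
    have hv : v ∈ P C := by rw [hPe]; simp
    have hw : w ∈ P C := by rw [hPe]; simp
    exact ⟨v, mem_biUnion.2 ⟨C, hC, hv⟩, w, mem_biUnion.2 ⟨C, hC, hw⟩, hvw,
      (hAC C v (hP1 C hC hv)).2.2.1, (hAC C w (hP1 C hC hw)).2.2.1⟩
  · intro b' hb'
    rw [disjoint_left]
    intro z hz hz'
    obtain ⟨C, hC, hz⟩ := mem_biUnion.1 hz
    exact (hAC C z (hP1 C hC hz)).2.2.2 (mem_biUnion.2 ⟨b', hb', hz'⟩)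
  · intro z hz
    obtain ⟨C, hC, hz⟩ := mem_biUnion.1 hz
    exact (hAC C z (hP1 C hC hz)).2.1

end Pool.Agent.Work.MP_db9399_sc.helper26
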