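import Pool.Agent.Work.MP_db9399_sc.Interface

/-!
# MP_db9399, THEOREM SC: block FIND (helper26; adapted from helper25's FIND of the dense theorem)
-/

set_option autoImplicit false

namespace Pool.Agent.Work.MP_db9399_sc.helper26.FIND

open Finset Classical
open Pool.Agent.Work.MP_db9399_all (nb)
open Pool.Agent.Work.MP_db9399_dn (NB IsMat Tot)
open _root_.MP_db9399_co

universe u

section aux
variable {V : Type u} [Fintype V]

lemma mem_nb (G : SimpleGraph V) (v w : V) : w ∈ nb G v ↔ G.Adj v w := by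
  unfold nb; simp

lemma card_nb (G : SimpleGraph V) [DecidableRel G.Adj] (v : V) : (nb G v).card = G.degree v := by
  rw [← SimpleGraph.card_neighborFinset_eq_degree]
  congr 1
  ext w
  rw [mem_nb]
  simp

lemma sum_nb_sdiff (G : SimpleGraph V) [DecidableRel G.Adj] (A S : Finset V) :
    (∑ a ∈ A, ((nb G a \ S).card : ℝ)) = ((G.interedges A (univ \ S)).card : ℝ) := by
  have h : (G.interedges A (univ \ S)).card = ∑ a ∈ A, (nb G a \ S).card := by
    rw [SimpleGraph.interedges_def, card_filter, sum_product]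
    refine sum_congr rfl fun a _ => ?_
    rw [← card_filter]
    congr 1
    ext w
    simp [mem_nb, and_comm]
  rw [h]
  push_cast
  rfl

end aux

/-- Block FIND. -/
theorem stmt_FIND : Stmt_FIND.{u} := by
  intro hPRE hFULL hASM η hη
  set η' : ℝ := min η (1 / 100) with hη'
  have h0 : 0 < η' := lt_min hη (by norm_num)
  have h1 : η' ≤ 1 / 100 := min_le_right _ _
  have h2 : η' ≤ η := min_le_left _ _
  obtain ⟨c1, α, dP, hc1, hα, hP⟩ := hPRE η' h0 h1
  obtain ⟨dF, hF⟩ := hFULL η' α h0 h1 hα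
  refine ⟨min c1 (1 / 100), max dP (max dF 1), lt_min hc1 (by norm_num), ?_⟩
  intro V _ G _ k m hmax hcol hm hNB hk H hH c₀ t₀ h₀ hcols
  set d : ℕ := G.maxDegree with hd
  have hdP : dP ≤ d := (le_max_left _ _).trans hmax
  have hdF : dF ≤ d := ((le_max_left _ _).trans (le_max_right _ _)).trans hmax
  have hd1 : 1 ≤ d := ((le_max_right _ _).trans (le_max_right _ _)).trans hmax
  have hd0 : (0 : ℝ) ≤ d := Nat.cast_nonneg d
  have hdeg : ∀ v, (nb G v).card ≤ d := by
    intro v
    rw [card_nb]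
    exact G.degree_le_maxDegree v
  have hcc1 : min c1 (1 / 100) * (d : ℝ) ≤ c1 * d := mul_le_mul_of_nonneg_right (min_le_left _ _) hd0
  have hcc2 : min c1 (1 / 100) * (d : ℝ) ≤ 1 / 100 * d :=
    mul_le_mul_of_nonneg_right (min_le_right _ _) hd0
  have hNB' : NB η' G d (Hv η' G d) := by
    intro S T hST hTL hc
    rw [sum_nb_sdiff]
    have hT0 : (0 : ℝ) ≤ T.card := Nat.cast_nonneg _
    have a1 : (S.card : ℝ) ≤ (1 + η) * T.card :=
      hc.trans (mul_le_mul_of_nonneg_right (by linarith) hT0)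
    refine le_trans ?_ (hNB S T hST ?_ a1)
    · apply mul_le_mul_of_nonneg_right _ hT0
      exact mul_le_mul_of_nonneg_right h2 hd0
    · intro t ht
      have a2 := hTL ht
      rw [Hv, mem_filter] at a2
      have a3 := a2.2
      rw [card_nb] at a3
      refine le_trans ?_ a3
      apply mul_le_mul_of_nonneg_right _ hd0
      linarith
  -- the precolouring
  obtain ⟨hM, hdist⟩ := hH
  set U : Finset V := univ.filter (fun v => v ∈ H.verts) with hU
  have hUmem : ∀ v, v ∈ U ↔ v ∈ H.verts := by intro v; rw [hU]; simp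
  have hF2 : ∀ u ∈ U, ∀ v ∈ U, G.Adj u v → H.Adj u v := by
    intro u hu v hv huv
    by_contra hn
    have h1 := hdist u ((hUmem u).1 hu) v ((hUmem v).1 hv) huv.ne hn
    have h3 : G.edist u v ≤ ((SimpleGraph.Walk.cons huv SimpleGraph.Walk.nil).length : ℕ∞) :=
      SimpleGraph.edist_le _
    simp only [SimpleGraph.Walk.length_cons, SimpleGraph.Walk.length_nil] at h3
    have h4 := h1.trans h3
    norm_num at h4
  have hF3 : ∀ u ∈ U, ∀ v ∈ U, ∀ x, u ≠ v → G.Adj x u → G.Adj x v → H.Adj u v := by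
    intro u hu v hv x huv hxu hxv
    by_contra hn
    have h1 := hdist u ((hUmem u).1 hu) v ((hUmem v).1 hv) huv hn
    have h3 : G.edist u v ≤ ((SimpleGraph.Walk.cons hxu.symm
        (SimpleGraph.Walk.cons hxv SimpleGraph.Walk.nil)).length : ℕ∞) :=
      SimpleGraph.edist_le _
    simp only [SimpleGraph.Walk.length_cons, SimpleGraph.Walk.length_nil] at h3
    have h4 := h1.trans h3
    norm_num at h4
  have hF4 : ∀ u v v', H.Adj u v → H.Adj u v' → v = v' := by
    intro u v v' h1 h2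
    exact (hM h1.fst_mem).unique h1 h2
  have hUadj : ∀ a b, H.Adj a b → a ∈ U := fun a b h => (hUmem a).2 h.fst_mem
  have hnbU : ∀ v, (nb G v ∩ U).card ≤ 2 := by
    intro v
    by_contra hcon
    obtain ⟨a, ha, b, hb, c, hc, hab, hac, hbc⟩ := Finset.two_lt_card.1 (not_le.1 hcon)
    rw [mem_inter, mem_nb] at ha hb hc
    exact hbc (hF4 a b c (hF3 a ha.2 b hb.2 v hab ha.1 hb.1) (hF3 a ha.2 c hc.2 v hac ha.1 hc.1))
  set CH : Finset (Fin k) := univ.filter (fun a => a ∈ c₀ '' H.verts ∪ t₀ '' H.edgeSet) with hCH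
  have hCHc : CH.card = (c₀ '' H.verts ∪ t₀ '' H.edgeSet).ncard := by
    rw [← Set.ncard_coe_finset]
    congr 1
    ext a
    rw [hCH]
    simp
  have hχ : 100 * m ≤ d := by
    have : (m : ℝ) ≤ 1 / 100 * d := hm.trans hcc2
    have h3 : (100 * m : ℝ) ≤ d := by linarith
    exact_mod_cast h3
  obtain ⟨J⟩ := hcol
  have hJ : ∀ v, (J v : ℕ) < m := fun v => (J v).2
  have hJG : ∀ v w, G.Adj v w → (J v : ℕ) ≠ J w := fun v w hvw h => J.valid hvw (Fin.ext h)
  have hEt : ∀ v w, H.spanningCoe.Adj v w → t₀ s(v, w) = t₀ s(w, v) := by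
    intro v w _
    rw [Sym2.eq_swap]
  obtain ⟨Z⟩ := hP G d k m (fun v => (J v : ℕ)) U c₀ H.spanningCoe (fun v w => t₀ s(v, w)) CH
    hdP hk hdeg (hm.trans hcc1) hJ hJG hnbU
    (fun v hv w hw hvw => h₀.vertex v w (by simpa using hF2 v hv w hw hvw))
    (by
      intro v w hvw
      have : H.Adj v w := by simpa using hvw
      exact this.adj_sub)
    (by
      intro v
      rw [card_le_one]
      intro a ha b hb
      rw [mem_nb] at ha hb
      exact hF4 v a b (by simpa using ha) (by simpa using hb))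
    (by
      intro v w hvw
      have hvw' : H.Adj v w := by simpa using hvw
      exact ⟨hUadj v w hvw', h₀.incidence v w hvw, hEt v w hvw⟩)
    (by
      rw [hCHc]
      exact hcols.trans hcc1)
    (by
      intro v hv
      rw [hCH, mem_filter]
      exact ⟨mem_univ _, Or.inl ⟨v, (hUmem v).1 hv, rfl⟩⟩)
    (by
      intro v w hvw
      rw [hCH, mem_filter]
      refine ⟨mem_univ _, Or.inr ⟨s(v, w), ?_, rfl⟩⟩
      simpa using hvw)
  obtain ⟨F⟩ := hF G d k m (fun v => (J v : ℕ)) U c₀ H.spanningCoe (fun v w => t₀ s(v, w)) Z hdF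
    hdeg hNB' hχ hJ hJG hnbU
  obtain ⟨c, t, ⟨g1, g2, g3, g4⟩, g5, g6⟩ := hASM Z F h0 hd1 hk hdeg hEt
  refine ⟨c, Sym2.lift ⟨fun a b => t a b, fun a b => g2 a b⟩, ⟨?_, ?_, ?_⟩, ?_, ?_⟩
  · exact g1
  · intro u v w huv huw hvw heq
    apply hvw
    exact g3 u (by rw [Finset.mem_coe, mem_nb]; exact huv) (by rw [Finset.mem_coe, mem_nb]; exact huw)
      heq
  · intro u v huv
    exact g4 u v huv
  · intro v hv
    exact g5 v ((hUmem v).2 hv)
  · intro e he
    induction e using Sym2.ind with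
    | _ a b =>
      have : H.Adj a b := by simpa using he
      exact g6 a b (by simpa using this)

end Pool.Agent.Work.MP_db9399_sc.helper26.FIND
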