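import Pool.Agent.Work.MP_db9399_sc.Interface

/-!
# MP_db9399, THEOREM SC: the induction over the rounds (helper26)
-/

set_option autoImplicit false

namespace Pool.Agent.Work.MP_db9399_sc.helper26

open Finset Classical
open Pool.Agent.Work.MP_db9399_all (nb)
open Pool.Agent.Work.MP_db9399_dn (NB IsMat)

universe u

section
variable {V : Type u} [Fintype V]

lemma mem_nb {G : SimpleGraph V} {v w : V} : w ∈ nb G v ↔ G.Adj v w := by
  simp [nb]

/-- degree in the forbidden edges -/
lemma nb_forb_card {k : ℕ} (D0 : SimpleGraph V) (M : Fin k → SimpleGraph V) (I : Finset (Fin k))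
    (hM : ∀ b, IsMat (M b)) (hI : ∀ b v w, (M b).Adj v w → b ∈ I) (v : V) :
    (nb (D0 ⊔ ⨆ b, M b) v).card ≤ (nb D0 v).card + I.card := by
  have hsub : nb (D0 ⊔ ⨆ b, M b) v ⊆ nb D0 v ∪ I.biUnion fun b => nb (M b) v := by
    intro w hw
    rw [mem_nb, SimpleGraph.sup_adj, SimpleGraph.iSup_adj] at hw
    rw [mem_union, mem_biUnion]
    rcases hw with h | ⟨b, h⟩
    · exact Or.inl (mem_nb.2 h)
    · exact Or.inr ⟨b, hI b v w h, mem_nb.2 h⟩
  refine (card_le_card hsub).trans ((card_union_le _ _).trans (Nat.add_le_add_left ?_ _))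
  refine card_biUnion_le.trans ?_
  calc ∑ b ∈ I, (nb (M b) v).card ≤ ∑ _b ∈ I, 1 := sum_le_sum fun b _ => hM b v
    _ = I.card := by simp

/-- what has to be chosen in a round -/
def Sel (η : ℝ) (G : SimpleGraph V) (d : ℕ) {k : ℕ} (I : Finset (Fin k))
    (X : Fin k → Finset V) (Good : Fin k → Finset V → Prop) : Prop :=
  ∀ b ∈ I, ∀ I' ⊆ I, b ∉ I' → ∀ O' : Fin k → Finset V, (∀ b' ∈ I', Spr G d (O' b')) →
    (∀ b' ∈ I', ∀ b'' ∈ I', b' ≠ b'' → Disjoint (O' b') (O' b'')) →
    ∀ (D : SimpleGraph V) (Cs : Finset (Finset V)), (∀ v, ((nb D v).card : ℝ) ≤ η / 100 * d) →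
      Fam G (G \ D) d (univ \ X b) (Hv η G d \ X b) Cs →
      ∃ O : Finset V, (∀ z ∈ O, ∃ C ∈ Cs, Typ (G \ D) d (univ \ X b) C z) ∧
        (∀ C ∈ Cs, (O ∩ C).card ≤ 2) ∧
        (∀ C ∈ Cs, ∃ v ∈ O, ∃ w ∈ O, v ≠ w ∧ Typ (G \ D) d (univ \ X b) C v ∧
          Typ (G \ D) d (univ \ X b) C w) ∧
        (∀ b' ∈ I', Disjoint O (O' b')) ∧ Good b O

end

/-- The induction over the rounds. -/
theorem rounds (hS : Stmt_STEP.{u}) (η : ℝ) (hη : 0 < η) (hη' : η ≤ 1 / 100) :
    ∃ d0 : ℕ, ∀ {V : Type u} [Fintype V] (G : SimpleGraph V) (d k : ℕ) (I : Finset (Fin k))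
      (D0 : SimpleGraph V) (X : Fin k → Finset V) (Good : Fin k → Finset V → Prop),
      d0 ≤ d → (∀ v, (nb G v).card ≤ d) → NB η G d (Hv η G d) →
      (I.card : ℝ) ≤ η / 200 * d → (∀ v, ((nb D0 v).card : ℝ) ≤ η / 200 * d) →
      (∀ b ∈ I, ∀ v, ((nb G v ∩ X b).card : ℝ) ≤ η / 100 * d) →
      Sel η G d I X Good →
      ∃ R : Rnd G d k (Hv η G d) I D0 X, ∀ b ∈ I, Good b (R.O b) := by
  obtain ⟨d0, hstep⟩ := hS η hη hη'
  refine ⟨d0, ?_⟩
  intro V _ G d k I D0 X Good hd hdeg hNB hI hD0 hX hsel
  have key : ∀ I' : Finset (Fin k), I' ⊆ I →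
      ∃ R : Rnd G d k (Hv η G d) I' D0 X, ∀ b ∈ I', Good b (R.O b) := by
    intro I'
    induction I' using Finset.induction_on with
    | empty =>
      intro _
      refine ⟨{ M := fun _ => ⊥, O := fun _ => ∅, Mle := fun _ => bot_le, Mmat := ?_, MI := ?_,
                MD := ?_, Md := ?_, Mcov := ?_, OX := ?_, Od := ?_, Ospr := ?_ }, ?_⟩
      · intro b v
        simp [nb]
      · intro b v w h
        exact absurd h (by simp)
      · intro b v w h
        exact absurd h (by simp)
      · intro b b' _ v w h
        exact absurd h (by simp)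
      · intro b hb
        exact absurd hb (notMem_empty b)
      · intro b hb
        exact absurd hb (notMem_empty b)
      · intro b hb
        exact absurd hb (notMem_empty b)
      · intro b hb
        exact absurd hb (notMem_empty b)
      · intro b hb
        exact absurd hb (notMem_empty b)
    | insert b I' hb ih =>
      intro hsub
      have hbI : b ∈ I := hsub (mem_insert_self _ _)
      have hI'I : I' ⊆ I := (subset_insert _ _).trans hsub
      obtain ⟨R, hR⟩ := ih hI'I
      set D : SimpleGraph V := D0 ⊔ ⨆ b', R.M b' with hD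
      have hDdeg : ∀ v, ((nb D v).card : ℝ) ≤ η / 100 * d := by
        intro v
        have h1 := nb_forb_card D0 R.M I' R.Mmat R.MI v
        have h2 : ((nb D v).card : ℝ) ≤ (nb D0 v).card + I'.card := by exact_mod_cast h1
        have h3 : (I'.card : ℝ) ≤ I.card := by exact_mod_cast card_le_card hI'I
        have h4 := hD0 v
        linarith
      obtain ⟨Cs, hfam, hmat⟩ := hstep G D d (X b) hd hdeg hNB hDdeg (hX b hbI)
      obtain ⟨O, o1, o2, o3, o4, o5⟩ := hsel b hbI I' hI'I hb R.O R.Ospr R.Od D Cs hDdeg hfam
      obtain ⟨M, m1, m2, m3, m4⟩ := hmat O o3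
      have hDM : ∀ v w, M.Adj v w → G.Adj v w ∧ ¬ D.Adj v w := by
        intro v w h
        have := m1 h
        rwa [SimpleGraph.sdiff_adj] at this
      have hDadj : ∀ v w, D.Adj v w ↔ D0.Adj v w ∨ ∃ b', (R.M b').Adj v w := by
        intro v w
        rw [hD, SimpleGraph.sup_adj, SimpleGraph.iSup_adj]
      have hOX : Disjoint O (X b) := by
        rw [disjoint_left]
        intro z hz
        obtain ⟨C, hC, hzC⟩ := o1 z hz
        have h1 := (hfam.crit C hC).1 hzC.1
        rw [mem_sdiff] at h1
        exact h1.2
      refine ⟨{ M := Function.update R.M b M, O := Function.update R.O b O, Mle := ?_,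
                Mmat := ?_, MI := ?_, MD := ?_, Md := ?_, Mcov := ?_, OX := ?_, Od := ?_,
                Ospr := ?_ }, ?_⟩
      · intro b'
        by_cases h : b' = b
        · subst h
          rw [Function.update_self]
          exact fun v w hvw => (hDM v w hvw).1
        · rw [Function.update_of_ne h]
          exact R.Mle b'
      · intro b'
        by_cases h : b' = b
        · subst h
          rw [Function.update_self]
          exact m2
        · rw [Function.update_of_ne h]
          exact R.Mmat b'
      · intro b' v w hvw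
        by_cases h : b' = b
        · rw [h]; exact mem_insert_self _ _
        · rw [Function.update_of_ne h] at hvw
          exact mem_insert_of_mem (R.MI b' v w hvw)
      · intro b' v w hvw
        by_cases h : b' = b
        · subst h
          rw [Function.update_self] at hvw
          exact ⟨fun h' => (hDM v w hvw).2 ((hDadj v w).2 (Or.inl h')), m3 v w hvw⟩
        · rw [Function.update_of_ne h] at hvw
          exact R.MD b' v w hvw
      · intro b1 b2 h12 v w hvw
        by_cases h1 : b1 = b
        · subst h1
          rw [Function.update_self] at hvw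
          rw [Function.update_of_ne (Ne.symm h12)]
          exact fun h' => (hDM v w hvw).2 ((hDadj v w).2 (Or.inr ⟨b2, h'⟩))
        · rw [Function.update_of_ne h1] at hvw
          by_cases h2 : b2 = b
          · subst h2
            rw [Function.update_self]
            exact fun h' => (hDM v w h').2 ((hDadj v w).2 (Or.inr ⟨b1, hvw⟩))
          · rw [Function.update_of_ne h2]
            exact R.Md b1 b2 h12 v w hvw
      · intro b' hb' v hv hvX hvO
        by_cases h : b' = b
        · subst h
          rw [Function.update_self] at hvO ⊢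
          exact m4 v hv hvX hvO
        · rw [Function.update_of_ne h] at hvO ⊢
          exact R.Mcov b' (mem_of_mem_insert_of_ne hb' h) v hv hvX hvO
      · intro b' hb'
        by_cases h : b' = b
        · subst h
          rw [Function.update_self]
          exact hOX
        · rw [Function.update_of_ne h]
          exact R.OX b' (mem_of_mem_insert_of_ne hb' h)
      · intro b1 hb1 b2 hb2 h12
        by_cases h1 : b1 = b
        · subst h1
          rw [Function.update_self, Function.update_of_ne (Ne.symm h12)]
          exact o4 b2 (mem_of_mem_insert_of_ne hb2 (Ne.symm h12))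
        · by_cases h2 : b2 = b
          · subst h2
            rw [Function.update_self, Function.update_of_ne h1]
            exact (o4 b1 (mem_of_mem_insert_of_ne hb1 h1)).symm
          · rw [Function.update_of_ne h1, Function.update_of_ne h2]
            exact R.Od b1 (mem_of_mem_insert_of_ne hb1 h1) b2
              (mem_of_mem_insert_of_ne hb2 h2) h12
      · intro b' hb'
        by_cases h : b' = b
        · subst h
          rw [Function.update_self]
          exact ⟨G \ D, univ \ X b', Hv η G d \ X b', Cs, hfam, o1, o2⟩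
        · rw [Function.update_of_ne h]
          exact R.Ospr b' (mem_of_mem_insert_of_ne hb' h)
      · intro b' hb'
        by_cases h : b' = b
        · subst h
          simp only [Function.update_self]
          exact o5
        · simp only [Function.update_of_ne h]
          exact hR b' (mem_of_mem_insert_of_ne hb' h)
  exact key I subset_rfl

end Pool.Agent.Work.MP_db9399_sc.helper26
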