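import Pool.Agent.Work.MP_db9399_sc_helper26.IND

/-!
# MP_db9399, THEOREM SC: block QALL (helper26)
-/

set_option autoImplicit false

namespace Pool.Agent.Work.MP_db9399_sc.helper26

open Finset Classical
open Pool.Agent.Work.MP_db9399_all (nb)
open Pool.Agent.Work.MP_db9399_dn (NB IsMat)

universe u

/-- a typical vertex has almost all its neighbours in its set -/
lemma typ_out {V : Type u} [Fintype V] {G F : SimpleGraph V} {d : ℕ} {U L C : Finset V} {v : V}
    (hE : Env G F d U L) (hC : C ⊆ L) (hv : Typ F d U C v) :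
    1000 * (nb G v \ C).card ≤ 2 * d := by
  have h1 := hE.big v (hC hv.1)
  have h2 := hv.2
  have h3 : (nb F v ∩ U).card ≤ (nb F v ∩ C).card + (nb F v ∩ (U \ C)).card := by
    refine le_trans (card_le_card ?_) (card_union_le _ _)
    intro w hw
    rw [mem_inter] at hw
    by_cases hwC : w ∈ C
    · exact mem_union_left _ (mem_inter.2 ⟨hw.1, hwC⟩)
    · exact mem_union_right _ (mem_inter.2 ⟨hw.1, mem_sdiff.2 ⟨hw.2, hwC⟩⟩)
  have h4 : (nb F v ∩ C).card + (nb G v \ C).card ≤ d := by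
    refine le_trans ?_ (hE.deg v)
    rw [← card_union_of_disjoint]
    · refine card_le_card (union_subset ?_ sdiff_subset)
      intro w hw
      exact mem_nb.2 (hE.FG (mem_nb.1 (mem_inter.1 hw).1))
    · rw [disjoint_left]
      intro w hw hw'
      exact (mem_sdiff.1 hw').2 (mem_inter.1 hw).2
  omega

theorem stmt_QALL (hS : Stmt_STEP.{u}) (hD : Stmt_DEP.{u}) (hT : Stmt_TRV.{u}) :
    Stmt_QALL.{u} := by
  intro η hη hη'
  obtain ⟨d1, h1⟩ := rounds hS η hη hη'
  obtain ⟨d2, h2⟩ := hD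
  obtain ⟨d3, h3⟩ := hT
  refine ⟨max d1 (max d2 (max d3 20000)), ?_⟩
  intro V _ G d k χ J I D0 X Y hd hdeg hNB hχ hJ hJG hI hD0 hX hY
  have hd1 : d1 ≤ d := (le_max_left _ _).trans hd
  have hd2 : d2 ≤ d := ((le_max_left _ _).trans (le_max_right _ _)).trans hd
  have hd3 : d3 ≤ d :=
    ((le_max_left _ _).trans ((le_max_right _ _).trans (le_max_right _ _))).trans hd
  have hd4 : 20000 ≤ d :=
    ((le_max_right _ _).trans ((le_max_right _ _).trans (le_max_right _ _))).trans hd
  have hd4' : (20000 : ℝ) ≤ d := by exact_mod_cast hd4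
  have hdpos : (0 : ℝ) < d := by linarith
  refine h1 G d k I D0 X (fun _ O => Disjoint O Y ∧ ∀ v ∈ O, ∀ w ∈ O, ¬ G.Adj v w) hd1 hdeg
    hNB hI hD0 hX ?_
  intro b hbI I' hI' _ O' hO' hO'd D Cs hDdeg hfam
  -- the eligible vertices
  set A : Finset V → Finset V := fun C =>
    (C.filter fun v => Typ (G \ D) d (univ \ X b) C v) \ (Y ∪ I'.biUnion O') with hA
  have hAcard : ∀ C ∈ Cs, d ≤ 4 * (A C).card := by
    intro C hC
    obtain ⟨e1, -, e3, e4, e5⟩ := h2 G (G \ D) d (univ \ X b) (Hv η G d \ X b) C hd2 hfam.env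
      (hfam.crit C hC)
    have e6 := e5 (Fin k) I' O' hO' hO'd
    have e7 := e3 Y (d / 10) hY
    have e8 : C.card ≤ (A C).card + ((C.filter fun v => ¬ Typ (G \ D) d (univ \ X b) C v).card
        + ((C ∩ Y).card + (I'.biUnion O' ∩ C).card)) := by
      refine le_trans (card_le_card (t := A C ∪
        ((C.filter fun v => ¬ Typ (G \ D) d (univ \ X b) C v) ∪ ((C ∩ Y) ∪
          (I'.biUnion O' ∩ C)))) ?_) ?_
      · intro v hv
        by_cases t1 : Typ (G \ D) d (univ \ X b) C v
        · by_cases t2 : v ∈ I'.biUnion O'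
          · exact mem_union_right _ (mem_union_right _ (mem_union_right _
              (mem_inter.2 ⟨t2, hv⟩)))
          · by_cases t3 : v ∈ Y
            · exact mem_union_right _ (mem_union_right _ (mem_union_left _
                (mem_inter.2 ⟨hv, t3⟩)))
            · refine mem_union_left _ (mem_sdiff.2 ⟨mem_filter.2 ⟨hv, t1⟩, ?_⟩)
              rw [mem_union]
              exact fun h => h.elim t3 t2
        · exact mem_union_right _ (mem_union_left _ (mem_filter.2 ⟨hv, t1⟩))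
      · exact (card_union_le _ _).trans (Nat.add_le_add_left ((card_union_le _ _).trans
          (Nat.add_le_add_left (card_union_le _ _) _)) _)
    have f1 : ((C.filter fun v => ¬ Typ (G \ D) d (univ \ X b) C v).card : ℝ) ≤ 1400 := by
      exact_mod_cast e1
    have f4 : 99 * (d : ℝ) ≤ 100 * C.card := by exact_mod_cast e4
    have f6 : (d : ℝ) * (I'.biUnion O' ∩ C).card ≤ 3 * I'.card * C.card + 1400 * d := by
      exact_mod_cast e6
    have f8 : (C.card : ℝ) ≤ (A C).card +
        ((C.filter fun v => ¬ Typ (G \ D) d (univ \ X b) C v).card + ((C ∩ Y).card +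
          (I'.biUnion O' ∩ C).card)) := by
      exact_mod_cast e8
    have f9 : (I'.card : ℝ) * 20000 ≤ d := by
      have g1 : (I'.card : ℝ) ≤ I.card := by exact_mod_cast card_le_card hI'
      have g2 : η / 200 * d ≤ 1 / 100 / 200 * (d : ℝ) := by
        apply mul_le_mul_of_nonneg_right _ hdpos.le
        linarith
      linarith
    have f10 : ((I'.biUnion O' ∩ C).card : ℝ) ≤ 1 / 1000 * C.card + 1400 := by
      have g1 : (d : ℝ) * (I'.biUnion O' ∩ C).card ≤ d * (1 / 1000 * C.card + 1400) := by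
        have g2 : (I'.card : ℝ) * 20000 * C.card ≤ d * C.card :=
          mul_le_mul_of_nonneg_right f9 (Nat.cast_nonneg _)
        have g3 : (0 : ℝ) ≤ d * C.card := by positivity
        nlinarith
      exact le_of_mul_le_mul_left g1 hdpos
    have f11 : ((C ∩ Y).card : ℝ) ≤ 11 / 100 * C.card + 1400 := by
      have g1 : (d : ℝ) * (C ∩ Y).card ≤ d * (11 / 100 * C.card + 1400) := by
        refine e7.trans (le_of_eq ?_)
        ring
      exact le_of_mul_le_mul_left g1 hdpos
    have f12 : (d : ℝ) ≤ 4 * (A C).card := by nlinarith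
    exact_mod_cast f12
  have hAC : ∀ C, ∀ v ∈ A C, v ∈ C ∧ Typ (G \ D) d (univ \ X b) C v ∧ v ∉ Y ∧
      v ∉ I'.biUnion O' := by
    intro C v hv
    simp only [hA, mem_sdiff, mem_filter, mem_union, not_or] at hv
    exact ⟨hv.1.1, hv.1.2, hv.2.1, hv.2.2⟩
  obtain ⟨O, o1, o2, o3⟩ := h3 G d χ J Cs A hd3 hχ hJ hJG (fun C hC => by
    refine ⟨fun v hv => (hAC C v hv).1, hAcard C hC, fun v hv => ?_⟩
    have := typ_out hfam.env (hfam.crit C hC).1 (hAC C v hv).2.1
    omega) hfam.dis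
  have hOC : ∀ C ∈ Cs, ∀ v ∈ O ∩ C, Typ (G \ D) d (univ \ X b) C v := by
    intro C hC v hv
    rw [mem_inter] at hv
    obtain ⟨C', hC', hvA⟩ := o2 v hv.1
    have h4 := hAC C' v hvA
    by_cases h : C' = C
    · rw [h] at h4
      exact h4.2.1
    · exact absurd hv.2 (disjoint_left.1 (hfam.dis C' hC' C hC h) h4.1)
  refine ⟨O, ?_, ?_, ?_, ?_, ?_, o1⟩
  · intro z hz
    obtain ⟨C, hC, hz⟩ := o2 z hz
    exact ⟨C, hC, (hAC C z hz).2.1⟩
  · intro C hC
    rw [o3 C hC]
  · intro C hC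
    obtain ⟨v, w, hvw, hPe⟩ := card_eq_two.1 (o3 C hC)
    have hv : v ∈ O ∩ C := by rw [hPe]; simp
    have hw : w ∈ O ∩ C := by rw [hPe]; simp
    exact ⟨v, (mem_inter.1 hv).1, w, (mem_inter.1 hw).1, hvw, hOC C hC v hv, hOC C hC w hw⟩
  · intro b' hb'
    rw [disjoint_left]
    intro z hz hz'
    obtain ⟨C, hC, hz⟩ := o2 z hz
    exact (hAC C z hz).2.2.2 (mem_biUnion.2 ⟨b', hb', hz'⟩)
  · rw [disjoint_left]
    intro z hz hz'
    obtain ⟨C, hC, hz⟩ := o2 z hz
    exact (hAC C z hz).2.2.1 hz'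

end Pool.Agent.Work.MP_db9399_sc.helper26
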